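import Pool.Agent.H97.EH.FD
import Pool.Agent.H61.EH.Bd
import Pool.Agent.H98.EH.Left

/-!
# EHP (S06849): the hypotheses `FHyp` for `F_A`, `F_B`, up to the field `right`
-/

set_option autoImplicit false

open Real Set Pool.EH

noncomputable section

namespace Pool.Agent.H29.EH

open Pool.Agent.H24.EH (FHyp rho)

/-- field `right` of `FHyp` -/
def RightHyp (c : ℝ) (F Fl Fg Flg Fgg : ℝ → ℝ → ℝ) : Prop :=
  ∃ K, ∀ l g, Real.log 8 ≤ l → 0 < g → |Real.cosh g - 2 * rho l| ≤ 1 →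
    |Fl l g| ≤ K ∧ |Fg l g| ≤ K ∧ |Flg l g| ≤ K ∧ |Fgg l g| ≤ K ∧ |F l g - l - c| ≤ K * Real.exp (-l)

theorem fhyp_A_of {p : ℝ} (hp : 0 < p) (hp1 : p < 1)
    (hR : RightHyp (-Real.log p) (FA p) (FAl p) (FAg p) (FAgl p) (FAgg p)) :
    FHyp p (-Real.log p) (FA p) (FAl p) (FAg p) (FAll p) (FAgl p) (FAgg p)
      (Pool.Agent.H97.EH.FAllg p) where
  data := Pool.Agent.H97.EH.fdata_A hp hp1
  sign := fun _ _ hg hr => det_A hp hp1 hg hr
  err := by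
    refine ⟨2 ^ 14 / (p * (1 - p)) ^ 3, fun l g hl hg hg1 => ?_⟩
    refine (Pool.Agent.H61.EH.final_A hp hp1 hg hg1 hl).trans (le_of_eq ?_)
    change _ = 2 ^ 14 / (p * (1 - p)) ^ 3 * rh l * g / (|rh l - p| + g) ^ 3
    ring
  right := hR
  left := Pool.Agent.H98.EH.left_A hp hp1

theorem fhyp_B_of {p : ℝ} (hp : 0 < p) (hp1 : p < 1)
    (hR : RightHyp (-Real.log (1 - p)) (FB p) (FBl p) (FBg p) (FBgl p) (FBgg p)) :
    FHyp p (-Real.log (1 - p)) (FB p) (FBl p) (FBg p) (FBll p) (FBgl p) (FBgg p)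
      (Pool.Agent.H97.EH.FBllg p) where
  data := Pool.Agent.H97.EH.fdata_B hp hp1
  sign := fun _ _ hg hr => det_B hp hp1 hg hr
  err := by
    refine ⟨2 ^ 14 / (p * (1 - p)) ^ 3, fun l g hl hg hg1 => ?_⟩
    refine (Pool.Agent.H61.EH.final_B hp hp1 hg hg1 hl).trans (le_of_eq ?_)
    change _ = 2 ^ 14 / (p * (1 - p)) ^ 3 * rh l * g / (|rh l - p| + g) ^ 3
    ring
  right := hR
  left := Pool.Agent.H98.EH.left_B hp hp1

end Pool.Agent.H29.EH
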